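import Pool.Agent.H29.Bogo.FieldC

set_option autoImplicit false

/-!
# The Bogomolov property is not inherited by finite Galois overfields with finite new torsion

We disprove the statement of the question for the multiplicative group over `K = ℚ`: there are
algebraic extensions `ℚ ⊆ F₀ ⊆ F` such that `F₀` has the Bogomolov property, `F / F₀` is finite,
`F / ℚ` is Galois, `F` has only finitely many roots of unity outside `F₀`, and `F` does not have
the Bogomolov property.

Sketch. For every prime `p ≥ 5` we construct `Q ∈ ℤ[X]` of degree `p`, irreducible, with all roots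
real in `(-2, 2)`, leading coefficient at most `9 p ^ 2` and Galois group the full symmetric group.
The field `F` is generated by all the roots of the reciprocal polynomials `X ^ p * Q (X + 1 / X)`.
All these roots (and their conjugates) lie on the unit circle, so complex conjugation is central in
`Gal (F / ℚ)`, and its fixed field `F₀` is totally real, hence has the Bogomolov property
(Schinzel).  The roots have height at most `log (9 p ^ 2) / p`, and a group theoretic argument with
the symmetric groups shows that all roots of unity in `F` have order dividing `240`.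
-/

namespace Pool.Agent.Results.MP_d03a5a_nt.GmCounterexample

open Pool.Agent.H29.Bogo

/-- The Bogomolov property with respect to the multiplicative group, for a field `F` of
characteristic zero (in the application `F` is an algebraic extension of `ℚ`): there is `ε > 0`
such that every nonzero `x` in `F` of absolute logarithmic Weil height less than `ε` is a root
of unity. -/
def BogomolovProperty (F : Type*) [Field F] [CharZero F] : Prop :=
  ∃ ε : ℝ, 0 < ε ∧ ∀ x : F, x ≠ 0 → NumberField.absLogHeight₁ x < ε →
    ∃ n : ℕ, 0 < n ∧ x ^ n = 1

theorem bogomolov_FF0 : BogomolovProperty FF0 := by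
  refine ⟨Real.log 2 / 4, by have := Real.log_pos (one_lt_two); positivity, fun x hx0 hx => ?_⟩
  by_contra hcon
  have h1 : x ≠ 1 := by
    rintro rfl
    exact hcon ⟨1, one_pos, by simp⟩
  have h2 : x ≠ -1 := by
    rintro rfl
    exact hcon ⟨2, two_pos, by simp⟩
  have hint : IsIntegral ℚ x := Algebra.IsIntegral.isIntegral x
  have := absLogHeight_lower x hint hx0 h1 h2 (fun z hz => real_of_FF0 x z hz)
  linarith

theorem not_bogomolov_FF : ¬ BogomolovProperty FF := by
  rintro ⟨ε, hε, h⟩
  have h1 : ∀ᶠ n in Filter.atTop, Real.log (9 * (pr n : ℝ) ^ 2) / pr n < ε :=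
    tendsto_small.eventually_lt_const hε
  obtain ⟨n, hn1, hn2⟩ := (h1.and (Filter.eventually_ge_atTop 241)).exists
  obtain ⟨b, hb0, hb1, hb2⟩ := exists_small n (lt_of_lt_of_le (by omega) (le_pr n))
  exact hb1 (h b hb0 (hb2.trans_lt hn1))

/-- **Main result.** There are algebraic extensions `ℚ ⊆ F₀ ⊆ F` such that `F₀` has the
Bogomolov property with respect to the multiplicative group, `[F : F₀]` is finite, `F / ℚ` is
Galois (and so is `F₀ / ℚ`), only finitely many roots of unity of `F` lie outside `F₀`, and `F`
does not have the Bogomolov property. -/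
theorem result : ∃ (F : IntermediateField ℚ (AlgebraicClosure ℚ)) (F₀ : IntermediateField ℚ F),
    BogomolovProperty F₀ ∧ FiniteDimensional F₀ F ∧ IsGalois ℚ F ∧ IsGalois ℚ F₀ ∧
      {x : F | (∃ n : ℕ, 0 < n ∧ x ^ n = 1) ∧ x ∉ F₀}.Finite ∧ ¬ BogomolovProperty F := by
  classical
  refine ⟨FF, FF0, bogomolov_FF0, FF0_finite, FF_isGalois, FF0_isGalois, ?_, not_bogomolov_FF⟩
  apply Set.Finite.subset (s := ((Polynomial.nthRoots 240 (1 : FF)).toFinset : Set FF))
  · exact Finset.finite_toSet _
  · rintro x ⟨⟨n, hn, hx⟩, -⟩
    rw [Finset.mem_coe, Multiset.mem_toFinset, Polynomial.mem_nthRoots (by norm_num)]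
    exact pow_240 x n hn hx

end Pool.Agent.Results.MP_d03a5a_nt.GmCounterexample
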